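import Pool.Agent.W155.MF.W1c

/-! MF-W1: the wedge with a far point at the opening. -/

set_option autoImplicit false

namespace Pool.Agent.W155.MF

open Finset Pool.Agent.W957.MF

theorem G_one (t : ℕ) (σ : Equiv.Perm (Fin 1)) :
    G (Icc 0 (2 * t)) (fun T => OccR T σ) = -1 := by
  rw [G_compl ⟨0, by simp⟩, ← G_empty (Icc 0 (2 * t))]
  congr 1
  refine G_congr fun T _ => ?_
  constructor
  · intro h
    rw [Finset.eq_empty_iff_forall_notMem]
    intro x hx
    refine h ⟨fun _ => x, fun _ => hx, ?_, ?_⟩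
    · intro i j hij
      exact absurd hij (by rw [Subsingleton.elim i j]; exact lt_irrefl _)
    · intro i j hij
      exact absurd hij (by rw [Subsingleton.elim i j]; exact lt_irrefl _)
  · rintro rfl ⟨f, h1, -⟩
    exact absurd (h1 0) (Finset.notMem_empty _)

theorem G_top {t k : ℕ} (hk : k = 2 * t + 1) (σ : Equiv.Perm (Fin k)) (P : Prop)
    (hP : OccR (Icc 0 (2 * t)) σ ↔ P) [Decidable P] :
    G (Icc 0 (2 * t)) (fun T => OccR T σ) = if P then -1 else 0 := by
  classical
  unfold G
  rw [Finset.sum_eq_single (Icc 0 (2 * t))]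
  · simp only [hP]
    have : (-1 : ℤ) ^ (Icc 0 (2 * t)).card = -1 := by
      rw [Nat.card_Icc, Nat.sub_zero]
      exact Odd.neg_one_pow ⟨t, rfl⟩
    rw [this]
  · intro T hT hne
    rw [Finset.mem_powerset] at hT
    rw [if_neg]
    rintro ⟨f, h1, hm, -⟩
    apply hne
    apply Finset.eq_of_subset_of_card_le hT
    have h2 : (Finset.univ.image f).card = k := by
      rw [Finset.card_image_of_injective _ hm.injective, Finset.card_univ, Fintype.card_fin]
    have h3 : Finset.univ.image f ⊆ T := by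
      intro x hx
      obtain ⟨i, _, rfl⟩ := Finset.mem_image.1 hx
      exact h1 i
    have h4 := Finset.card_le_card h3
    rw [Nat.card_Icc]
    omega
  · intro h; exact absurd (Finset.mem_powerset_self _) h

theorem t_W1 (h1 : S_W) (h2 : S_PAT) (h3 : S_SUBW) : S_W1 := by
  classical
  intro z t ht h
  have hcard : (Icc 0 (2 * t)).card = 2 * t + 1 := by simp
  have hpat := h2 z (Icc 0 (2 * t)) (gp h)
  have hW := h1 z (Icc 0 (2 * t)) (gp h)
  rw [hcard] at hpat hW
  obtain ⟨π, hocc, huniq, -⟩ := hpat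
  refine ⟨π, hocc, ?_⟩
  have hI : Icc 1 (2 * t + 1) = insert 1 (insert 2 (insert 3 (insert (2 * t + 1) (Icc 4 (2 * t))))) := by
    ext; simp; omega
  rw [hI, Finset.sum_insert (by simp; try omega), Finset.sum_insert (by simp; try omega),
    Finset.sum_insert (by simp; try omega), Finset.sum_insert (by simp)] at hW
  have s1 : ∑ σ : Equiv.Perm (Fin 1), mu 1 σ * g z (Icc 0 (2 * t)) σ = -1 := by
    rw [Fintype.sum_unique, mu_one, g_eq h, G_one]; ring
  have s2 : ∑ σ : Equiv.Perm (Fin 2), mu 2 σ * g z (Icc 0 (2 * t)) σ = 2 * t - 3 := by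
    rw [univ_two, Finset.sum_pair one_ne_swap, mu_two, mu_two, g_eq h, g_eq h,
      G_congr (fun T _ => occ12 T), G_congr (fun T _ => occ21 T)]
    have a := val12 (t := t) (by omega)
    have b := val21 (t := t) (by omega)
    rw [a, b]; ring
  have s3 : ∑ σ : Equiv.Perm (Fin 3), mu 3 σ * g z (Icc 0 (2 * t)) σ = 2 * t - 3 := by
    rw [Finset.sum_eq_add_of_mem (Equiv.swap 1 2) ((finRotate 3).symm) (Finset.mem_univ _)
      (Finset.mem_univ _) (by decide)]
    · rw [mu_minDec 3 _ le_rfl ((minDec_three _).2 rfl), mu_maxInc 3 _ le_rfl ((maxInc_three _).2 rfl),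
        g_eq h, g_eq h, G_congr (fun T _ => occ132 T), G_congr (fun T _ => occ312 T)]
      have a := val132 (t := t) (by omega)
      have b := val312 (t := t) (by omega)
      rw [a, b]; simp; try ring
    · rintro σ _ ⟨n1, n2⟩
      rw [g_eq h, G_zero (k := 2) h3 (by omega) σ (fun hh => n1 ((minDec_three _).1 hh))
        (fun hh => n2 ((maxInc_three _).1 hh)), mul_zero]
  have s4 : ∑ σ : Equiv.Perm (Fin (2 * t + 1)), mu (2 * t + 1) σ * g z (Icc 0 (2 * t)) σ
      = - mu (2 * t + 1) π := by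
    rw [Finset.sum_eq_single π]
    · rw [g_eq h, G_top rfl π True (by simpa using (occ_iff h le_rfl π).1 hocc)]
      simp
    · intro σ _ hσ
      rw [g_eq h, G_top rfl σ False]
      · simp
      · rw [iff_false, ← occ_iff h le_rfl]
        exact fun ho => hσ (huniq σ ho)
    · intro hh; exact absurd (Finset.mem_univ _) hh
  have s5 : ∑ k ∈ Icc 4 (2 * t), ∑ σ : Equiv.Perm (Fin k), mu k σ * g z (Icc 0 (2 * t)) σ = 0 := by
    refine Finset.sum_eq_zero fun k hk => Finset.sum_eq_zero fun σ _ => ?_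
    rw [Finset.mem_Icc] at hk
    by_cases c1 : MinDec σ
    · rw [mu_minDec k σ (by omega) c1, if_neg (by omega), zero_mul]
    · by_cases c2 : MaxInc σ
      · rw [mu_maxInc k σ (by omega) c2, if_neg (by omega), zero_mul]
      · obtain ⟨k, rfl⟩ : ∃ k', k = k' + 1 := ⟨k - 1, by omega⟩
        rw [g_eq h, G_zero h3 (by omega) σ c1 c2, mul_zero]
  rw [s1, s2, s3, s4, s5] at hW
  push_cast at hW
  have hmu : mu (2 * t + 1) π = 6 * t - 6 := by linarith
  rw [hmu]
  have ht' : (2 : ℤ) ≤ t := by exact_mod_cast ht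
  rw [abs_of_nonneg (by linarith)]
  linarith

end Pool.Agent.W155.MF
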