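import Pool.Agent.W957.MF.Stm

/-! MF-W1, part 1: the principal Moebius function of some simple permutations. -/

set_option autoImplicit false

namespace Pool.Agent.W155.MF

open Finset Pool.Agent.W957.MF

theorem mu_one (π : Equiv.Perm (Fin 1)) : mu 1 π = 1 := by
  rw [mu]; simp

open Classical in
theorem mu_rec {n : ℕ} (hn : 2 ≤ n) (π : Equiv.Perm (Fin n)) :
    mu n π = - ∑ k ∈ Ico 1 n, ∑ τ : Equiv.Perm (Fin k), if Contained τ π then mu k τ else 0 := by
  rw [mu, if_neg (by omega)]
  congr 1
  rw [Finset.sum_fin_eq_sum_range]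
  have : Ico 1 n = (range n).filter (fun k => 1 ≤ k) := by ext; simp; omega
  rw [this, Finset.sum_filter]
  refine Finset.sum_congr rfl fun k hk => ?_
  have hk' : k < n := by simpa using hk
  rw [dif_pos hk']
  by_cases h : 1 ≤ k
  · simp [h]
  · simp [h]

/-- complement -/
def cmpl {k : ℕ} (σ : Equiv.Perm (Fin k)) : Equiv.Perm (Fin k) := σ.trans Fin.revPerm

theorem cmpl_lt {k : ℕ} (σ : Equiv.Perm (Fin k)) (i j : Fin k) : cmpl σ i < cmpl σ j ↔ σ j < σ i := by
  simp [cmpl]

theorem contained_cmpl {k n : ℕ} (τ : Equiv.Perm (Fin k)) (π : Equiv.Perm (Fin n)) :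
    Contained (cmpl τ) (cmpl π) ↔ Contained τ π := by
  constructor
  · rintro ⟨f, hf, h⟩
    refine ⟨f, hf, fun i j => ?_⟩
    have := h j i
    rwa [cmpl_lt, cmpl_lt] at this
  · rintro ⟨f, hf, h⟩
    refine ⟨f, hf, fun i j => ?_⟩
    rw [cmpl_lt, cmpl_lt]
    exact h j i

/-- complement as an equivalence -/
def cmplE (k : ℕ) : Equiv.Perm (Fin k) ≃ Equiv.Perm (Fin k) where
  toFun := cmpl
  invFun := cmpl
  left_inv σ := by ext i; simp [cmpl]
  right_inv σ := by ext i; simp [cmpl]

theorem mu_cmpl (n : ℕ) : ∀ π : Equiv.Perm (Fin n), mu n (cmpl π) = mu n π := by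
  induction n using Nat.strong_induction_on with
  | _ n ih =>
    intro π
    rcases Nat.lt_or_ge n 2 with h | h
    · interval_cases n
      · congr 1
        exact Subsingleton.elim _ _
      · rw [mu_one, mu_one]
    · rw [mu_rec h, mu_rec h]
      congr 1
      refine Finset.sum_congr rfl fun k hk => ?_
      have hk' : k < n := (Finset.mem_Ico.1 hk).2
      rw [← Equiv.sum_comp (cmplE k)]
      refine Finset.sum_congr rfl fun τ _ => ?_
      have e : cmplE k τ = cmpl τ := rfl
      rw [e, ih k hk']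
      by_cases hc : Contained τ π
      · rw [if_pos hc, if_pos ((contained_cmpl τ π).2 hc)]
      · rw [if_neg hc, if_neg (fun h => hc ((contained_cmpl τ π).1 h))]

theorem perm_ext {k : ℕ} (σ τ : Equiv.Perm (Fin k)) (h : ∀ i j, i < j → (σ i < σ j ↔ τ i < τ j)) :
    σ = τ := by
  have h' : ∀ i j, σ i < σ j ↔ τ i < τ j := by
    intro i j
    rcases lt_trichotomy i j with hij | hij | hij
    · exact h i j hij
    · subst hij; simp
    · have := h j i hij
      have h1 : σ i ≠ σ j := fun e => hij.ne' (σ.injective e)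
      have h2 : τ i ≠ τ j := fun e => hij.ne' (τ.injective e)
      constructor
      · intro hs
        by_contra hc
        have : σ j < σ i := this.2 (lt_of_le_of_ne (not_lt.1 hc) h2.symm)
        exact absurd hs this.asymm
      · intro hs
        by_contra hc
        have : τ j < τ i := this.1 (lt_of_le_of_ne (not_lt.1 hc) h1.symm)
        exact absurd hs this.asymm
  let e : Fin k ≃o Fin k :=
    { toEquiv := σ.symm.trans τ
      map_rel_iff' := by
        intro a b
        have := h' (σ.symm b) (σ.symm a)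
        simp only [Equiv.apply_symm_apply] at this
        simp only [Equiv.trans_apply]
        rw [← not_lt, ← not_lt, this] }
  have he : e = OrderIso.refl _ := Subsingleton.elim _ _
  ext i
  have : e (σ i) = σ i := by rw [he]; rfl
  simp only [e] at this
  have h2 : τ i = σ i := by simpa using this
  rw [h2]

/-- decreasing -/
def Dec {k : ℕ} (σ : Equiv.Perm (Fin k)) : Prop := ∀ i j, i < j → σ j < σ i
/-- first entry minimal, the rest decreasing -/
def MinDec {k : ℕ} (σ : Equiv.Perm (Fin k)) : Prop := ∀ i j, i < j → (σ i < σ j ↔ i.val = 0)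
/-- first entry maximal, the rest increasing -/
def MaxInc {k : ℕ} (σ : Equiv.Perm (Fin k)) : Prop := ∀ i j, i < j → (σ i < σ j ↔ i.val ≠ 0)

theorem contained_one {n : ℕ} (hn : 1 ≤ n) (τ : Equiv.Perm (Fin 1)) (π : Equiv.Perm (Fin n)) :
    Contained τ π := by
  refine ⟨fun _ => ⟨0, hn⟩, ?_, ?_⟩
  · intro i j hij
    exact absurd hij (by rw [Subsingleton.elim i j]; exact lt_irrefl _)
  · intro i j
    rw [Subsingleton.elim i j]; simp

theorem univ_two : (Finset.univ : Finset (Equiv.Perm (Fin 2))) = {1, Equiv.swap 0 1} := by decide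

theorem one_ne_swap : (1 : Equiv.Perm (Fin 2)) ≠ Equiv.swap 0 1 := by decide

theorem mu_two (π : Equiv.Perm (Fin 2)) : mu 2 π = -1 := by
  rw [mu_rec le_rfl]
  have : Ico 1 2 = {1} := by decide
  rw [this, Finset.sum_singleton]
  simp [contained_one, mu_one]

/-- an ascent -/
theorem contained_12 {n : ℕ} (π : Equiv.Perm (Fin n)) :
    Contained (1 : Equiv.Perm (Fin 2)) π ↔ ∃ i j, i < j ∧ π i < π j := by
  constructor
  · rintro ⟨f, hf, h⟩
    exact ⟨f 0, f 1, hf (by decide), (h 0 1).1 (by decide)⟩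
  · rintro ⟨i, j, hij, h⟩
    refine ⟨![i, j], ?_, ?_⟩
    · intro a b hab
      fin_cases a <;> fin_cases b <;> simp_all
    · intro a b
      fin_cases a <;> fin_cases b <;> simp [h, h.le]

/-- a descent -/
theorem contained_21 {n : ℕ} (π : Equiv.Perm (Fin n)) :
    Contained (Equiv.swap 0 1 : Equiv.Perm (Fin 2)) π ↔ ∃ i j, i < j ∧ π j < π i := by
  constructor
  · rintro ⟨f, hf, h⟩
    exact ⟨f 0, f 1, hf (by decide), (h 1 0).1 (by decide)⟩
  · rintro ⟨i, j, hij, h⟩
    refine ⟨![i, j], ?_, ?_⟩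
    · intro a b hab
      fin_cases a <;> fin_cases b <;> simp_all
    · intro a b
      fin_cases a <;> fin_cases b <;> simp [h, h.le]

theorem dec_of_contained {k n : ℕ} {τ : Equiv.Perm (Fin k)} {π : Equiv.Perm (Fin n)} (hπ : Dec π)
    (h : Contained τ π) : Dec τ := by
  obtain ⟨f, hf, h⟩ := h
  intro i j hij
  exact (h j i).2 (hπ _ _ (hf hij))

theorem mu_dec (n : ℕ) : ∀ π : Equiv.Perm (Fin n), 3 ≤ n → Dec π → mu n π = 0 := by
  induction n using Nat.strong_induction_on with
  | _ n ih =>
    intro π hn hd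
    rw [mu_rec (by omega)]
    have hI : Ico 1 n = insert 1 (insert 2 (Ico 3 n)) := by ext; simp; omega
    rw [hI, Finset.sum_insert (by simp), Finset.sum_insert (by simp), univ_two,
      Finset.sum_pair one_ne_swap, Finset.sum_eq_zero (s := Ico 3 n)]
    · have h21 : Contained (Equiv.swap 0 1 : Equiv.Perm (Fin 2)) π := by
        rw [contained_21]
        exact ⟨⟨0, by omega⟩, ⟨1, by omega⟩, by simp, hd _ _ (by simp)⟩
      have h12 : ¬ Contained (1 : Equiv.Perm (Fin 2)) π := by
        rw [contained_12]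
        rintro ⟨i, j, hij, h⟩
        exact absurd h (hd _ _ hij).asymm
      rw [if_pos h21, if_neg h12]
      simp [contained_one (by omega : 1 ≤ n), mu_one, mu_two]
    · intro k hk
      rw [Finset.mem_Ico] at hk
      refine Finset.sum_eq_zero fun τ _ => ?_
      split_ifs with hc
      · exact ih k hk.2 τ hk.1 (dec_of_contained hd hc)
      · rfl

theorem contained_minDec {k n : ℕ} {τ : Equiv.Perm (Fin k)} {π : Equiv.Perm (Fin n)} (hπ : MinDec π)
    (h : Contained τ π) : Dec τ ∨ MinDec τ := by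
  obtain ⟨f, hf, h⟩ := h
  by_cases h0 : ∃ i, (f i).val = 0
  · right
    obtain ⟨i0, hi0⟩ := h0
    have hi0' : i0.val = 0 := by
      by_contra hc
      have : (⟨0, by omega⟩ : Fin k) < i0 := by
        rw [Fin.lt_def]; simp; omega
      have := hf this
      rw [Fin.lt_def] at this
      omega
    intro i j hij
    rw [h i j, hπ _ _ (hf hij)]
    constructor
    · intro hfi
      have : i = i0 := hf.injective (Fin.ext (by rw [hfi, hi0]))
      rw [this, hi0']
    · intro hi
      have : i = i0 := Fin.ext (by rw [hi, hi0'])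
      rw [this, hi0]
  · left
    push Not at h0
    intro i j hij
    have h1 := h i j
    rw [hπ _ _ (hf hij)] at h1
    have h2 : ¬ τ i < τ j := fun hc => h0 i (h1.1 hc)
    exact lt_of_le_of_ne (not_lt.1 h2) (fun e => hij.ne' (τ.injective e))

theorem minDec_three (σ : Equiv.Perm (Fin 3)) : MinDec σ ↔ σ = Equiv.swap 1 2 := by
  unfold MinDec
  revert σ
  decide

theorem maxInc_three (σ : Equiv.Perm (Fin 3)) : MaxInc σ ↔ σ = (finRotate 3).symm := by
  unfold MaxInc
  revert σ
  decide

theorem cmpl_minDec {k : ℕ} (σ : Equiv.Perm (Fin k)) : MinDec (cmpl σ) ↔ MaxInc σ := by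
  unfold MinDec MaxInc
  refine forall_congr' fun i => forall_congr' fun j => forall_congr' fun hij => ?_
  rw [cmpl_lt]
  have h1 : σ i ≠ σ j := fun e => hij.ne (σ.injective e)
  have h2 : σ j < σ i ↔ ¬ σ i < σ j := by
    rw [not_lt]; exact ⟨le_of_lt, fun h => lt_of_le_of_ne h h1.symm⟩
  rw [h2]
  tauto

theorem contained_minDec_three {n : ℕ} (hn : 3 ≤ n) {π : Equiv.Perm (Fin n)} (hπ : MinDec π) :
    Contained (Equiv.swap 1 2 : Equiv.Perm (Fin 3)) π := by
  refine ⟨Fin.castLE hn, Fin.strictMono_castLE hn, fun i j => ?_⟩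
  have h3 : MinDec (Equiv.swap 1 2 : Equiv.Perm (Fin 3)) := (minDec_three _).2 rfl
  rcases lt_trichotomy i j with hij | hij | hij
  · rw [h3 _ _ hij, hπ _ _ (Fin.strictMono_castLE hn hij)]
    simp
  · subst hij; simp
  · have h1 := h3 _ _ hij
    have h2 := hπ _ _ (Fin.strictMono_castLE hn hij)
    have e : (Fin.castLE hn j).val = 0 ↔ j.val = 0 := by simp
    have a1 : (Equiv.swap 1 2 : Equiv.Perm (Fin 3)) i ≠ (Equiv.swap 1 2 : Equiv.Perm (Fin 3)) j :=
      fun e => hij.ne' ((Equiv.swap 1 2 : Equiv.Perm (Fin 3)).injective e)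
    have a2 : π (Fin.castLE hn i) ≠ π (Fin.castLE hn j) :=
      fun e => hij.ne' (Fin.castLE_injective hn (π.injective e))
    have b1 : (Equiv.swap 1 2 : Equiv.Perm (Fin 3)) i < (Equiv.swap 1 2 : Equiv.Perm (Fin 3)) j ↔
        ¬ (Equiv.swap 1 2 : Equiv.Perm (Fin 3)) j < (Equiv.swap 1 2 : Equiv.Perm (Fin 3)) i := by
      rw [not_lt]; exact ⟨le_of_lt, fun h => lt_of_le_of_ne h a1⟩
    have b2 : π (Fin.castLE hn i) < π (Fin.castLE hn j) ↔
        ¬ π (Fin.castLE hn j) < π (Fin.castLE hn i) := by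
      rw [not_lt]; exact ⟨le_of_lt, fun h => lt_of_le_of_ne h a2⟩
    rw [b1, b2, h1, h2, e]

theorem swap12_ascdesc {n : ℕ} (hn : 3 ≤ n) {π : Equiv.Perm (Fin n)} (hπ : MinDec π) :
    (∃ i j, i < j ∧ π i < π j) ∧ (∃ i j, i < j ∧ π j < π i) := by
  constructor
  · exact ⟨⟨0, by omega⟩, ⟨1, by omega⟩, by simp, (hπ _ _ (by simp)).2 rfl⟩
  · refine ⟨⟨1, by omega⟩, ⟨2, by omega⟩, by simp, ?_⟩
    have h := hπ (⟨1, by omega⟩ : Fin n) ⟨2, by omega⟩ (by simp)
    have h' : ¬ π ⟨1, by omega⟩ < π ⟨2, by omega⟩ := by rw [h]; simp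
    refine lt_of_le_of_ne (not_lt.1 h') (fun e => ?_)
    have := π.injective e
    simp at this

theorem mu_minDec (n : ℕ) : ∀ π : Equiv.Perm (Fin n), 3 ≤ n → MinDec π →
    mu n π = if n = 3 then 1 else 0 := by
  classical
  induction n using Nat.strong_induction_on with
  | _ n ih =>
    intro π hn hd
    obtain ⟨hasc, hdesc⟩ := swap12_ascdesc hn hd
    rw [mu_rec (by omega)]
    have hI : Ico 1 n = insert 1 (insert 2 (Ico 3 n)) := by ext; simp; omega
    rw [hI, Finset.sum_insert (by simp), Finset.sum_insert (by simp), univ_two,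
      Finset.sum_pair one_ne_swap, if_pos ((contained_12 π).2 hasc),
      if_pos ((contained_21 π).2 hdesc), mu_two, mu_two]
    have hone : ∑ τ : Equiv.Perm (Fin 1), (if Contained τ π then mu 1 τ else 0) = 1 := by
      simp [contained_one (by omega : 1 ≤ n), mu_one]
    rw [hone]
    rcases Nat.lt_or_ge n 4 with h4 | h4
    · have : n = 3 := by omega
      subst this
      simp
    · have hI2 : Ico 3 n = insert 3 (Ico 4 n) := by ext; simp; omega
      rw [hI2, Finset.sum_insert (by simp), Finset.sum_eq_zero (s := Ico 4 n),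
        Finset.sum_eq_single (Equiv.swap 1 2 : Equiv.Perm (Fin 3))]
      · rw [if_pos (contained_minDec_three hn hd), ih 3 (by omega) _ le_rfl ((minDec_three _).2 rfl)]
        simp
        omega
      · intro τ _ hτ
        split_ifs with hc
        · rcases contained_minDec hd hc with h | h
          · exact mu_dec 3 τ le_rfl h
          · exact absurd ((minDec_three _).1 h) hτ
        · rfl
      · intro h; exact absurd (Finset.mem_univ _) h
      · intro k hk
        rw [Finset.mem_Ico] at hk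
        refine Finset.sum_eq_zero fun τ _ => ?_
        split_ifs with hc
        · rcases contained_minDec hd hc with h | h
          · exact mu_dec k τ (by omega) h
          · rw [ih k hk.2 τ (by omega) h, if_neg (by omega)]
        · rfl

theorem mu_maxInc (n : ℕ) (π : Equiv.Perm (Fin n)) (hn : 3 ≤ n) (h : MaxInc π) :
    mu n π = if n = 3 then 1 else 0 := by
  rw [← mu_cmpl]
  exact mu_minDec n _ hn ((cmpl_minDec π).2 h)

end Pool.Agent.W155.MF
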