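import Pool.Agent.W155.MF.W1a

/-! MF-W1, part 2: signed sums over subsets and occurrences in the wedge with a far point. -/

set_option autoImplicit false

namespace Pool.Agent.W155.MF

open Finset Pool.Agent.W957.MF

open Classical in
/-- signed number of subsets of `A` with `P` -/
noncomputable def G (A : Finset ℕ) (P : Finset ℕ → Prop) : ℤ :=
  ∑ T ∈ A.powerset, if P T then (-1 : ℤ) ^ T.card else 0

theorem G_congr {A : Finset ℕ} {P Q : Finset ℕ → Prop} (h : ∀ T, T ⊆ A → (P T ↔ Q T)) :
    G A P = G A Q := by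
  classical
  refine Finset.sum_congr rfl fun T hT => ?_
  rw [Finset.mem_powerset] at hT
  simp only [h T hT]

theorem G_insert {A : Finset ℕ} {a : ℕ} (ha : a ∉ A) (P : Finset ℕ → Prop) :
    G (insert a A) P = G A P - G A (fun T => P (insert a T)) := by
  classical
  unfold G
  rw [Finset.sum_powerset_insert ha, sub_eq_add_neg, ← Finset.sum_neg_distrib]
  congr 1
  refine Finset.sum_congr rfl fun T hT => ?_
  rw [Finset.mem_powerset] at hT
  have : a ∉ T := fun h => ha (hT h)
  rw [Finset.card_insert_of_notMem this, pow_succ]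
  split_ifs <;> ring

theorem G_toggle {A : Finset ℕ} {a : ℕ} (ha : a ∉ A) {P : Finset ℕ → Prop}
    (h : ∀ T, T ⊆ A → (P T ↔ P (insert a T))) : G (insert a A) P = 0 := by
  rw [G_insert ha, G_congr h]; ring

theorem G_false {A : Finset ℕ} {P : Finset ℕ → Prop} (h : ∀ T, T ⊆ A → ¬ P T) : G A P = 0 := by
  classical
  refine Finset.sum_eq_zero fun T hT => ?_
  rw [Finset.mem_powerset] at hT
  simp [h T hT]

theorem G_split (A : Finset ℕ) (P Q : Finset ℕ → Prop) :
    G A P = G A (fun T => P T ∧ Q T) + G A (fun T => P T ∧ ¬ Q T) := by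
  classical
  unfold G
  rw [← Finset.sum_add_distrib]
  refine Finset.sum_congr rfl fun T _ => ?_
  by_cases h : P T <;> by_cases h' : Q T <;> simp [h, h']

theorem G_true {A : Finset ℕ} (hA : A.Nonempty) : G A (fun _ => True) = 0 := by
  obtain ⟨a, ha⟩ := hA
  have : A = insert a (A.erase a) := (Finset.insert_erase ha).symm
  rw [this]
  exact G_toggle (Finset.notMem_erase a A) (fun _ _ => Iff.rfl)

theorem G_compl {A : Finset ℕ} (hA : A.Nonempty) (P : Finset ℕ → Prop) :
    G A P = - G A (fun T => ¬ P T) := by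
  have h1 := G_split A (fun _ => True) P
  rw [G_true hA] at h1
  have h2 : G A (fun T => True ∧ P T) = G A P := G_congr fun T _ => by simp
  have h3 : G A (fun T => True ∧ ¬ P T) = G A (fun T => ¬ P T) := G_congr fun T _ => by simp
  rw [h2, h3] at h1
  linarith

theorem G_or {A : Finset ℕ} {P Q R : Finset ℕ → Prop} (h : ∀ T, T ⊆ A → (P T ↔ Q T ∨ R T))
    (hd : ∀ T, T ⊆ A → ¬ (Q T ∧ R T)) : G A P = G A Q + G A R := by
  classical
  unfold G
  rw [← Finset.sum_add_distrib]
  refine Finset.sum_congr rfl fun T hT => ?_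
  rw [Finset.mem_powerset] at hT
  have h1 := h T hT
  have h2 := hd T hT
  by_cases h3 : Q T <;> by_cases h4 : R T <;> simp_all

theorem G_empty (A : Finset ℕ) : G A (fun T => T = ∅) = 1 := by
  classical
  unfold G
  rw [Finset.sum_eq_single ∅]
  · simp
  · intro T _ h; simp [h]
  · intro h; exact absurd (Finset.empty_mem_powerset A) h

theorem G_singleton (A : Finset ℕ) (p : ℕ → Prop) [DecidablePred p] :
    G A (fun T => ∃ c, p c ∧ T = {c}) = - ((A.filter p).card : ℤ) := by
  classical
  unfold G
  have : ∑ T ∈ A.powerset, (if ∃ c, p c ∧ T = {c} then (-1 : ℤ) ^ T.card else 0)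
      = ∑ T ∈ (A.filter p).image (fun c => ({c} : Finset ℕ)), (-1 : ℤ) := by
    rw [← Finset.sum_filter]
    have hs : A.powerset.filter (fun T => ∃ c, p c ∧ T = {c})
        = (A.filter p).image (fun c => ({c} : Finset ℕ)) := by
      ext T
      simp only [Finset.mem_filter, Finset.mem_powerset, Finset.mem_image]
      constructor
      · rintro ⟨hT, c, hc, rfl⟩
        exact ⟨c, ⟨by simpa using hT, hc⟩, rfl⟩
      · rintro ⟨c, ⟨hcA, hc⟩, rfl⟩
        exact ⟨by simpa using hcA, c, hc, rfl⟩
    rw [hs]
    refine Finset.sum_congr rfl fun T hT => ?_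
    rw [Finset.mem_image] at hT
    obtain ⟨c, _, rfl⟩ := hT
    simp
  rw [this, Finset.sum_const, Finset.card_image_of_injective _ Finset.singleton_injective]
  simp

/-- the relation (lower than a later point) in the wedge with far point -/
def R (i j : ℕ) : Prop := if i = 0 then j % 2 = 1 else i % 2 = 0

theorem R_zero (j : ℕ) : R 0 j ↔ j % 2 = 1 := by simp [R]
theorem R_pos {i : ℕ} (hi : i ≠ 0) (j : ℕ) : R i j ↔ i % 2 = 0 := by simp [R, hi]

/-- occurrences in terms of `R` -/
def OccR (T : Finset ℕ) {k : ℕ} (σ : Equiv.Perm (Fin k)) : Prop :=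
  ∃ f : Fin k → ℕ, (∀ i, f i ∈ T) ∧ StrictMono f ∧ ∀ i j, i < j → (σ i < σ j ↔ R (f i) (f j))

theorem OccR.mono {T T' : Finset ℕ} {k : ℕ} {σ : Equiv.Perm (Fin k)} (h : OccR T σ) (hT : T ⊆ T') :
    OccR T' σ := by
  obtain ⟨f, h1, h2, h3⟩ := h
  exact ⟨f, fun i => hT (h1 i), h2, h3⟩

section

variable {z : Conf} {t : ℕ}

theorem rel (h : W1c z t) {i j : ℕ} (hij : i < j) (hj : j ≤ 2 * t) :
    (R i j → z false i < z false j) ∧ (¬ R i j → z false j < z false i) := by
  obtain ⟨h1, h2, h3, h4, h5⟩ := h
  rcases Nat.eq_zero_or_pos i with rfl | hi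
  · rw [R_zero]
    exact ⟨fun hp => h4 j hij hj hp, fun hp => h5 j hij hj (by omega)⟩
  · rw [R_pos hi.ne']
    constructor
    · intro hp
      rcases Nat.mod_two_eq_zero_or_one j with hj2 | hj2
      · exact h3 i j hi hij hj hp hj2
      · exact (h5 i hi (by omega) hp).trans (h4 j (by omega) hj hj2)
    · intro hp
      have hp' : i % 2 = 1 := by omega
      rcases Nat.mod_two_eq_zero_or_one j with hj2 | hj2
      · exact (h5 j (by omega) hj hj2).trans (h4 i hi (by omega) hp')
      · exact h2 i j hi hij hj hp' hj2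

theorem rel_iff (h : W1c z t) {i j : ℕ} (hij : i < j) (hj : j ≤ 2 * t) :
    z false i < z false j ↔ R i j := by
  obtain ⟨h1, h2⟩ := rel h hij hj
  constructor
  · intro hz
    by_contra hc
    exact absurd (h2 hc) hz.asymm
  · exact h1

theorem gp (h : W1c z t) : GP z (Icc 0 (2 * t)) := by
  intro b i hi j hj hij
  simp only [Finset.coe_Icc, Set.mem_Icc] at hi hj
  by_contra hne
  cases b with
  | true =>
    rcases lt_or_gt_of_ne hne with hlt | hlt
    · have := h.1 i j hlt hj.2; omega
    · have := h.1 j i hlt hi.2; omega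
  | false =>
    rcases lt_or_gt_of_ne hne with hlt | hlt
    · have := rel h hlt hj.2
      by_cases hR : R i j
      · have := this.1 hR; omega
      · have := this.2 hR; omega
    · have := rel h hlt hi.2
      by_cases hR : R j i
      · have := this.1 hR; omega
      · have := this.2 hR; omega

theorem occ_iff (h : W1c z t) {T : Finset ℕ} (hT : T ⊆ Icc 0 (2 * t)) {k : ℕ}
    (σ : Equiv.Perm (Fin k)) : Occ z T σ ↔ OccR T σ := by
  have hb : ∀ i ∈ T, i ≤ 2 * t := fun i hi => (Finset.mem_Icc.1 (hT hi)).2
  constructor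
  · rintro ⟨f, h1, h2, h3⟩
    have hm : StrictMono f := by
      intro i j hij
      have hz := (h2 i j).1 hij
      by_contra hc
      rcases (not_lt.1 hc).lt_or_eq with hlt | heq
      · exact absurd (h.1 _ _ hlt (hb _ (h1 i))) hz.asymm
      · rw [heq] at hz; exact lt_irrefl _ hz
    exact ⟨f, h1, hm, fun i j hij => by rw [h3 i j, rel_iff h (hm hij) (hb _ (h1 j))]⟩
  · rintro ⟨f, h1, hm, h3⟩
    refine ⟨f, h1, fun i j => ?_, fun i j => ?_⟩
    · constructor
      · intro hij; exact h.1 _ _ (hm hij) (hb _ (h1 j))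
      · intro hz
        by_contra hc
        rcases (not_lt.1 hc).lt_or_eq with hlt | heq
        · exact absurd (h.1 _ _ (hm hlt) (hb _ (h1 i))) hz.asymm
        · rw [heq] at hz; exact lt_irrefl _ hz
    · rcases lt_trichotomy i j with hij | hij | hij
      · rw [h3 i j hij, rel_iff h (hm hij) (hb _ (h1 j))]
      · subst hij; simp
      · have h4 := h3 j i hij
        have h5 := rel h (hm hij) (hb _ (h1 i))
        have h6 : σ i < σ j ↔ ¬ σ j < σ i := by
          rw [not_lt]
          exact ⟨le_of_lt, fun hle => lt_of_le_of_ne hle (fun e => hij.ne' (σ.injective e))⟩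
        rw [h6, h4]
        constructor
        · exact h5.2
        · intro hz hR
          exact absurd hz (h5.1 hR).asymm

theorem g_eq (h : W1c z t) {k : ℕ} (σ : Equiv.Perm (Fin k)) :
    g z (Icc 0 (2 * t)) σ = G (Icc 0 (2 * t)) (fun T => OccR T σ) := by
  classical
  unfold g G
  rw [← Finset.sum_filter]
  refine Finset.sum_congr ?_ fun _ _ => rfl
  ext T
  simp only [Finset.mem_filter, Finset.mem_powerset]
  constructor
  · rintro ⟨hT, ho⟩; exact ⟨hT, (occ_iff h hT σ).1 ho⟩
  · rintro ⟨hT, ho⟩; exact ⟨hT, (occ_iff h hT σ).2 ho⟩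

end

theorem icc0 (t : ℕ) : Icc 0 (2 * t) = insert 0 (Icc 1 (2 * t)) := by ext; simp; omega
theorem notMem0 (t : ℕ) : (0 : ℕ) ∉ Icc 1 (2 * t) := by simp

theorem pos_of_mem {T : Finset ℕ} {t : ℕ} (hT : T ⊆ Icc 1 (2 * t)) {i : ℕ} (hi : i ∈ T) : 1 ≤ i :=
  (Finset.mem_Icc.1 (hT hi)).1

/-- Case (ii): first entry minimal, the rest not decreasing; or first entry maximal, the rest not
increasing. -/
theorem case_ii {t k : ℕ} (σ : Equiv.Perm (Fin (k + 1)))
    (hσ : ((∀ j, 0 < j → σ 0 < σ j) ∧ ¬ MinDec σ) ∨ ((∀ j, 0 < j → σ j < σ 0) ∧ ¬ MaxInc σ)) :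
    G (Icc 0 (2 * t)) (fun T => OccR T σ) = 0 := by
  rw [icc0]
  refine G_toggle (notMem0 t) fun T hT => ⟨fun h => h.mono (Finset.subset_insert _ _), ?_⟩
  rintro ⟨f, h1, hm, h3⟩
  rcases Nat.eq_zero_or_pos (f 0) with h0 | h0
  · exfalso
    rcases hσ with ⟨hmin, hn⟩ | ⟨hmax, hn⟩
    · apply hn
      intro i j hij
      constructor
      · intro hlt
        by_contra hi
        have hi' : (0 : Fin (k + 1)) < i := by
          rw [Fin.pos_iff_ne_zero]; intro e; rw [e] at hi; exact hi rfl
        have ho := (h3 0 i hi').1 (hmin i hi')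
        rw [h0, R_zero] at ho
        have he := (h3 i j hij).1 hlt
        have : f i ≠ 0 := by have := hm hi'; omega
        rw [R_pos this] at he
        omega
      · intro hi
        have hi' : i = 0 := Fin.ext hi
        subst hi'
        exact hmin j hij
    · apply hn
      intro i j hij
      constructor
      · intro hlt hi
        have hi' : i = 0 := Fin.ext hi
        subst hi'
        exact absurd hlt (hmax j hij).asymm
      · intro hi
        have hi' : (0 : Fin (k + 1)) < i := by
          rw [Fin.pos_iff_ne_zero]; intro e; rw [e] at hi; exact hi rfl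
        have ho : ¬ R (f 0) (f i) := fun hR => absurd ((h3 0 i hi').2 hR) (hmax i hi').asymm
        rw [h0, R_zero] at ho
        have : f i ≠ 0 := by have := hm hi'; omega
        rw [h3 i j hij, R_pos this]
        omega
  · refine ⟨f, fun i => ?_, hm, h3⟩
    have hi : f 0 ≤ f i := hm.monotone (Fin.zero_le i)
    have := h1 i
    rw [Finset.mem_insert] at this
    rcases this with h | h
    · omega
    · exact h

/-- Case (i) -/
theorem case_i (hS : S_SUBW) {t k : ℕ} (hk : k < 2 * t) (σ : Equiv.Perm (Fin (k + 1)))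
    (h1 : ∃ a, 0 < a ∧ σ a < σ 0) (h2 : ∃ b, 0 < b ∧ σ 0 < σ b) :
    G (Icc 0 (2 * t)) (fun T => OccR T σ) = 0 := by
  classical
  obtain ⟨a, ha0, ha⟩ := h1
  obtain ⟨b, hb0, hb⟩ := h2
  have hzero : ∀ f : Fin (k + 1) → ℕ, StrictMono f → (∀ i j, i < j → (σ i < σ j ↔ R (f i) (f j))) →
      f 0 = 0 := by
    intro f hm h3
    by_contra hc
    have e1 := (h3 0 b hb0).1 hb
    have e2 : ¬ R (f 0) (f a) := fun hR => absurd ((h3 0 a ha0).2 hR) ha.asymm
    rw [R_pos hc] at e1 e2
    exact e2 e1
  rw [icc0, G_insert (notMem0 t)]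
  rw [G_false (A := Icc 1 (2 * t)) (P := fun T => OccR T σ)]
  swap
  · rintro T hT ⟨f, h1, hm, h3⟩
    have := hzero f hm h3
    have h4 := pos_of_mem hT (h1 0)
    omega
  rw [zero_sub, neg_eq_zero]
  by_cases hreal : ∀ i j : Fin (k + 1), 0 < i → i < j → (σ i < σ j ↔ ¬ σ 0 < σ i)
  · have key : ∀ T, T ⊆ Icc 1 (2 * t) → (OccR (insert 0 T) σ ↔
        SubW T k (fun a : Fin k => decide (σ 0 < σ a.succ))) := by
      intro T hT
      constructor
      · rintro ⟨f, h1, hm, h3⟩
        have h0 := hzero f hm h3
        refine ⟨fun a => f a.succ, ?_, ?_, ?_⟩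
        · intro i j hij
          exact hm (Fin.succ_lt_succ_iff.2 hij)
        · intro i
          have hp := hm (Fin.succ_pos i)
          have := h1 i.succ
          rw [Finset.mem_insert] at this
          rcases this with h | h
          · omega
          · exact h
        · intro i
          have := h3 0 i.succ (Fin.succ_pos i)
          rw [h0, R_zero] at this
          simp [this]
      · rintro ⟨f, hm, h1, h3⟩
        refine ⟨Fin.cons 0 f, ?_, ?_, ?_⟩
        · intro i
          refine Fin.cases ?_ (fun i => ?_) i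
          · simp
          · simp [h1 i]
        · intro i j hij
          revert hij
          refine Fin.cases ?_ (fun i => ?_) i
          · refine Fin.cases ?_ (fun j => ?_) j
            · intro h; exact absurd h (lt_irrefl _)
            · intro _
              have := pos_of_mem hT (h1 j)
              simp; omega
          · refine Fin.cases ?_ (fun j => ?_) j
            · intro h; exact absurd h (not_lt.2 (Fin.zero_le _))
            · intro hij
              simpa using hm (Fin.succ_lt_succ_iff.1 hij)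
        · intro i j hij
          revert hij
          refine Fin.cases ?_ (fun i => ?_) i
          · refine Fin.cases ?_ (fun j => ?_) j
            · intro h; exact absurd h (lt_irrefl _)
            · intro _
              have h4 := h3 j
              simp only [decide_eq_decide] at h4
              simp only [Fin.cons_zero, Fin.cons_succ, R_zero]
              exact h4
          · refine Fin.cases ?_ (fun j => ?_) j
            · intro h; exact absurd h (not_lt.2 (Fin.zero_le _))
            · intro hij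
              have h4 := h3 i
              simp only [decide_eq_decide] at h4
              rw [hreal i.succ j.succ (Fin.succ_pos i) hij]
              simp only [Fin.cons_succ]
              have hp : f i ≠ 0 := by have := pos_of_mem hT (h1 i); omega
              rw [R_pos hp, h4]
              omega
    rw [G_congr key]
    have := hS (2 * t) k (fun a : Fin k => decide (σ 0 < σ a.succ)) hk
    unfold G
    rw [← Finset.sum_filter]
    convert this using 2
  · refine G_false ?_
    rintro T hT ⟨f, h1, hm, h3⟩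
    apply hreal
    intro i j hi hij
    have h0 := hzero f hm h3
    have e1 := h3 0 i hi
    have hp : f i ≠ 0 := by have := hm hi; omega
    rw [h0, R_zero] at e1
    rw [h3 i j hij, R_pos hp, e1]
    omega

theorem G_zero (hS : S_SUBW) {t k : ℕ} (hk : k < 2 * t) (σ : Equiv.Perm (Fin (k + 1)))
    (h1 : ¬ MinDec σ) (h2 : ¬ MaxInc σ) :
    G (Icc 0 (2 * t)) (fun T => OccR T σ) = 0 := by
  by_cases hmin : ∀ j, 0 < j → σ 0 < σ j
  · exact case_ii σ (Or.inl ⟨hmin, h1⟩)
  · by_cases hmax : ∀ j, 0 < j → σ j < σ 0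
    · exact case_ii σ (Or.inr ⟨hmax, h2⟩)
    · push Not at hmin hmax
      obtain ⟨a, ha0, ha⟩ := hmin
      obtain ⟨b, hb0, hb⟩ := hmax
      refine case_i hS hk σ ⟨a, ha0, lt_of_le_of_ne ha ?_⟩ ⟨b, hb0, lt_of_le_of_ne hb ?_⟩
      · intro e; exact ha0.ne' (σ.injective e)
      · intro e; exact hb0.ne (σ.injective e)

end Pool.Agent.W155.MF
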