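import Pool.Agent.W155.MF.W1b

/-! MF-W1, part 3: the four special values. -/

set_option autoImplicit false

namespace Pool.Agent.W155.MF

open Finset Pool.Agent.W957.MF

def A12 (T : Finset ℕ) : Prop := ∃ i ∈ T, ∃ j ∈ T, i < j ∧ R i j
def A21 (T : Finset ℕ) : Prop := ∃ i ∈ T, ∃ j ∈ T, i < j ∧ ¬ R i j
def A132 (T : Finset ℕ) : Prop :=
  ∃ i ∈ T, ∃ j ∈ T, ∃ k ∈ T, i < j ∧ j < k ∧ R i j ∧ R i k ∧ ¬ R j k
def A312 (T : Finset ℕ) : Prop :=
  ∃ i ∈ T, ∃ j ∈ T, ∃ k ∈ T, i < j ∧ j < k ∧ ¬ R i j ∧ ¬ R i k ∧ R j k

theorem occ12 (T : Finset ℕ) : OccR T (1 : Equiv.Perm (Fin 2)) ↔ A12 T := by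
  constructor
  · rintro ⟨f, h1, hm, h3⟩
    exact ⟨f 0, h1 0, f 1, h1 1, hm (by decide), (h3 0 1 (by decide)).1 (by decide)⟩
  · rintro ⟨i, hi, j, hj, hij, h⟩
    refine ⟨![i, j], ?_, ?_, ?_⟩
    · intro a; fin_cases a <;> simp [hi, hj]
    · intro a b hab; fin_cases a <;> fin_cases b <;> simp_all
    · intro a b hab; fin_cases a <;> fin_cases b <;> simp_all

theorem occ21 (T : Finset ℕ) : OccR T (Equiv.swap 0 1 : Equiv.Perm (Fin 2)) ↔ A21 T := by
  constructor
  · rintro ⟨f, h1, hm, h3⟩
    exact ⟨f 0, h1 0, f 1, h1 1, hm (by decide), fun h => by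
      have := (h3 0 1 (by decide)).2 h
      revert this; decide⟩
  · rintro ⟨i, hi, j, hj, hij, h⟩
    refine ⟨![i, j], ?_, ?_, ?_⟩
    · intro a; fin_cases a <;> simp [hi, hj]
    · intro a b hab; fin_cases a <;> fin_cases b <;> simp_all
    · intro a b hab; fin_cases a <;> fin_cases b <;> simp_all

theorem occ132 (T : Finset ℕ) : OccR T (Equiv.swap 1 2 : Equiv.Perm (Fin 3)) ↔ A132 T := by
  constructor
  · rintro ⟨f, h1, hm, h3⟩
    refine ⟨f 0, h1 0, f 1, h1 1, f 2, h1 2, hm (by decide), hm (by decide),
      (h3 0 1 (by decide)).1 (by decide), (h3 0 2 (by decide)).1 (by decide), fun h => ?_⟩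
    have := (h3 1 2 (by decide)).2 h
    revert this; decide
  · rintro ⟨i, hi, j, hj, k, hk, hij, hjk, h, h', h''⟩
    refine ⟨![i, j, k], ?_, ?_, ?_⟩
    · intro a; fin_cases a <;> simp [hi, hj, hk]
    · intro a b hab
      fin_cases a <;> fin_cases b <;> simp_all
      omega
    · intro a b hab
      fin_cases a <;> fin_cases b <;> first | (exact absurd hab (by decide)) | skip
      · simp only [Fin.zero_eta, Fin.mk_one, Matrix.cons_val_zero, Matrix.cons_val_one, h, iff_true]
        decide
      · have : (![i, j, k] : Fin 3 → ℕ) 2 = k := rfl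
        simp only [Fin.zero_eta, Matrix.cons_val_zero, Fin.reduceFinMk, this, h', iff_true]
        decide
      · have e2 : (![i, j, k] : Fin 3 → ℕ) 2 = k := rfl
        have e1 : (![i, j, k] : Fin 3 → ℕ) 1 = j := rfl
        simp only [Fin.mk_one, Fin.reduceFinMk, e1, e2]
        simp only [h'', iff_false]
        decide

theorem occ312 (T : Finset ℕ) : OccR T ((finRotate 3).symm : Equiv.Perm (Fin 3)) ↔ A312 T := by
  constructor
  · rintro ⟨f, h1, hm, h3⟩
    refine ⟨f 0, h1 0, f 1, h1 1, f 2, h1 2, hm (by decide), hm (by decide), fun h => ?_,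
      fun h => ?_, (h3 1 2 (by decide)).1 (by decide)⟩
    · have := (h3 0 1 (by decide)).2 h
      revert this; decide
    · have := (h3 0 2 (by decide)).2 h
      revert this; decide
  · rintro ⟨i, hi, j, hj, k, hk, hij, hjk, h, h', h''⟩
    refine ⟨![i, j, k], ?_, ?_, ?_⟩
    · intro a; fin_cases a <;> simp [hi, hj, hk]
    · intro a b hab
      fin_cases a <;> fin_cases b <;> simp_all
      omega
    · intro a b hab
      have e1 : (![i, j, k] : Fin 3 → ℕ) 1 = j := rfl
      have e2 : (![i, j, k] : Fin 3 → ℕ) 2 = k := rfl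
      fin_cases a <;> fin_cases b <;> first | (exact absurd hab (by decide)) | skip
      · simp only [Fin.zero_eta, Fin.mk_one, Matrix.cons_val_zero, e1, h, iff_false]
        decide
      · simp only [Fin.zero_eta, Matrix.cons_val_zero, Fin.reduceFinMk, e2, h', iff_false]
        decide
      · simp only [Fin.mk_one, Fin.reduceFinMk, e1, e2]
        simp only [h'', iff_true]
        decide

theorem card_even (t : ℕ) : ((Icc 1 (2 * t)).filter (fun c => c % 2 = 0)).card = t := by
  have : (Icc 1 (2 * t)).filter (fun c => c % 2 = 0) = (Icc 1 t).image (fun i => 2 * i) := by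
    ext c
    simp only [Finset.mem_filter, Finset.mem_Icc, Finset.mem_image]
    constructor
    · rintro ⟨h1, h2⟩; exact ⟨c / 2, by omega, by omega⟩
    · rintro ⟨i, h1, rfl⟩; omega
  rw [this, Finset.card_image_of_injective _ (fun a b h => by simpa using h)]
  simp

theorem card_odd (t : ℕ) : ((Icc 1 (2 * t)).filter (fun c => c % 2 = 1)).card = t := by
  have : (Icc 1 (2 * t)).filter (fun c => c % 2 = 1) = (Icc 1 t).image (fun i => 2 * i - 1) := by
    ext c
    simp only [Finset.mem_filter, Finset.mem_Icc, Finset.mem_image]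
    constructor
    · rintro ⟨h1, h2⟩; exact ⟨(c + 1) / 2, by omega, by omega⟩
    · rintro ⟨i, h1, rfl⟩; omega
  rw [this, Finset.card_image_of_injOn]
  · simp
  · intro a ha b hb h
    simp only [Finset.coe_Icc, Set.mem_Icc] at ha hb
    simp only at h
    omega

/-- sum over the sets which are empty or a singleton with parity `p` -/
theorem G_small (t p : ℕ) (hp : p < 2) (P : Finset ℕ → Prop)
    (h : ∀ T, T ⊆ Icc 1 (2 * t) → (P T ↔ T = ∅ ∨ ∃ c, c % 2 = p ∧ T = {c})) :
    G (Icc 1 (2 * t)) P = 1 - t := by
  rw [G_or h, G_empty, G_singleton]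
  · have : ((Icc 1 (2 * t)).filter (fun c => c % 2 = p)).card = t := by
      interval_cases p
      · exact card_even t
      · exact card_odd t
    rw [this]; ring
  · rintro T _ ⟨h1, c, _, h2⟩
    rw [h1] at h2
    exact Finset.singleton_ne_empty c h2.symm

theorem empty_or_singleton {T : Finset ℕ} (h : ∀ i ∈ T, ∀ j ∈ T, ¬ i < j) (p : ℕ)
    (hp : ∀ i ∈ T, i % 2 = p) : T = ∅ ∨ ∃ c, c % 2 = p ∧ T = {c} := by
  rcases T.eq_empty_or_nonempty with rfl | ⟨c, hc⟩
  · exact Or.inl rfl
  · right
    refine ⟨c, hp c hc, ?_⟩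
    ext x
    rw [Finset.mem_singleton]
    constructor
    · intro hx
      have h1 := h x hx c hc
      have h2 := h c hc x hx
      omega
    · rintro rfl; exact hc

theorem val12 {t : ℕ} (ht : 1 ≤ t) : G (Icc 0 (2 * t)) A12 = -((t : ℤ) - 1) := by
  rw [G_compl ⟨0, by simp⟩, icc0, G_insert (notMem0 t)]
  have e1 : G (Icc 1 (2 * t)) (fun T => ¬ A12 T) = 0 := by
    have : Icc 1 (2 * t) = insert 1 (Icc 2 (2 * t)) := by ext; simp; omega
    rw [this]
    refine G_toggle (by simp) fun T hT => ?_
    have hb : ∀ i ∈ T, 2 ≤ i := fun i hi => (Finset.mem_Icc.1 (hT hi)).1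
    rw [not_iff_not]
    constructor
    · rintro ⟨i, hi, j, hj, h⟩
      exact ⟨i, Finset.mem_insert_of_mem hi, j, Finset.mem_insert_of_mem hj, h⟩
    · rintro ⟨i, hi, j, hj, hij, h⟩
      rw [Finset.mem_insert] at hi hj
      rcases hi with rfl | hi
      · rw [R_pos (by omega)] at h; omega
      · rcases hj with rfl | hj
        · have := hb i hi; omega
        · exact ⟨i, hi, j, hj, hij, h⟩
  have e2 : G (Icc 1 (2 * t)) (fun T => ¬ A12 (insert 0 T)) = 1 - t := by
    refine G_small t 0 (by omega) _ fun T hT => ?_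
    have hb : ∀ i ∈ T, 1 ≤ i := fun i hi => (Finset.mem_Icc.1 (hT hi)).1
    constructor
    · intro h
      have hev : ∀ i ∈ T, i % 2 = 0 := by
        intro i hi
        by_contra hc
        exact h ⟨0, by simp, i, Finset.mem_insert_of_mem hi, hb i hi, by rw [R_zero]; omega⟩
      refine empty_or_singleton (fun i hi j hj hij => h ⟨i, Finset.mem_insert_of_mem hi, j,
        Finset.mem_insert_of_mem hj, hij, ?_⟩) 0 hev
      have h1 := hb i hi
      have h2 := hev i hi
      rw [R_pos (by omega)]; exact h2
    · rintro (rfl | ⟨c, hc, rfl⟩) ⟨i, hi, j, hj, hij, h⟩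
      · simp at hi hj; omega
      · simp only [Finset.mem_insert, Finset.mem_singleton] at hi hj
        rcases hi with rfl | rfl
        · rcases hj with rfl | rfl
          · omega
          · rw [R_zero] at h; omega
        · rcases hj with rfl | rfl <;> omega
  rw [e1, e2]; ring

theorem val21 {t : ℕ} (ht : 1 ≤ t) : G (Icc 0 (2 * t)) A21 = -((t : ℤ) - 2) := by
  rw [G_compl ⟨0, by simp⟩, icc0, G_insert (notMem0 t)]
  have e1 : G (Icc 1 (2 * t)) (fun T => ¬ A21 T) = -1 := by
    have : Icc 1 (2 * t) = insert 1 (Icc 2 (2 * t)) := by ext; simp; omega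
    rw [this, G_insert (by simp)]
    have f1 : G (Icc 2 (2 * t)) (fun T => ¬ A21 T) = 0 := by
      have : Icc 2 (2 * t) = insert 2 (Icc 3 (2 * t)) := by ext; simp; omega
      rw [this]
      refine G_toggle (by simp) fun T hT => ?_
      have hb : ∀ i ∈ T, 3 ≤ i := fun i hi => (Finset.mem_Icc.1 (hT hi)).1
      rw [not_iff_not]
      constructor
      · rintro ⟨i, hi, j, hj, h⟩
        exact ⟨i, Finset.mem_insert_of_mem hi, j, Finset.mem_insert_of_mem hj, h⟩
      · rintro ⟨i, hi, j, hj, hij, h⟩
        rw [Finset.mem_insert] at hi hj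
        rcases hi with rfl | hi
        · rw [R_pos (by omega)] at h; omega
        · rcases hj with rfl | hj
          · have := hb i hi; omega
          · exact ⟨i, hi, j, hj, hij, h⟩
    have f2 : G (Icc 2 (2 * t)) (fun T => ¬ A21 (insert 1 T)) = 1 := by
      rw [← G_empty (Icc 2 (2 * t))]
      refine G_congr fun T hT => ?_
      have hb : ∀ i ∈ T, 2 ≤ i := fun i hi => (Finset.mem_Icc.1 (hT hi)).1
      constructor
      · intro h
        rw [Finset.eq_empty_iff_forall_notMem]
        intro x hx
        refine h ⟨1, by simp, x, Finset.mem_insert_of_mem hx, by have := hb x hx; omega, ?_⟩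
        rw [R_pos (by omega)]; omega
      · rintro rfl ⟨i, hi, j, hj, hij, h⟩
        simp at hi hj; omega
    rw [f1, f2]; ring
  have e2 : G (Icc 1 (2 * t)) (fun T => ¬ A21 (insert 0 T)) = 1 - t := by
    refine G_small t 1 (by omega) _ fun T hT => ?_
    have hb : ∀ i ∈ T, 1 ≤ i := fun i hi => (Finset.mem_Icc.1 (hT hi)).1
    constructor
    · intro h
      have hev : ∀ i ∈ T, i % 2 = 1 := by
        intro i hi
        by_contra hc
        exact h ⟨0, by simp, i, Finset.mem_insert_of_mem hi, hb i hi, by rw [R_zero]; omega⟩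
      refine empty_or_singleton (fun i hi j hj hij => h ⟨i, Finset.mem_insert_of_mem hi, j,
        Finset.mem_insert_of_mem hj, hij, ?_⟩) 1 hev
      have h1 := hb i hi
      have h2 := hev i hi
      rw [R_pos (by omega)]; omega
    · rintro (rfl | ⟨c, hc, rfl⟩) ⟨i, hi, j, hj, hij, h⟩
      · simp at hi hj; omega
      · simp only [Finset.mem_insert, Finset.mem_singleton] at hi hj
        rcases hi with rfl | rfl
        · rcases hj with rfl | rfl
          · omega
          · rw [R_zero] at h; omega
        · rcases hj with rfl | rfl <;> omega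
  rw [e1, e2]; ring

/-- the last point is odd, the others are even, and there are others -/
def D1 (T : Finset ℕ) : Prop :=
  ∃ c ∈ T, c % 2 = 1 ∧ (∀ x ∈ T, x ≤ c) ∧ (∀ x ∈ T, x ≠ c → x % 2 = 0) ∧ ∃ x ∈ T, x ≠ c

/-- the first point is even, the others are odd, and there are others -/
def D2 (T : Finset ℕ) : Prop :=
  ∃ c ∈ T, c % 2 = 0 ∧ (∀ x ∈ T, c ≤ x) ∧ (∀ x ∈ T, x ≠ c → x % 2 = 1) ∧ ∃ x ∈ T, x ≠ c

theorem G_par {A : Finset ℕ} {a p : ℕ} (ha : a ∈ A) (hp : a % 2 = p) :
    G A (fun T => T ≠ ∅ ∧ ∀ x ∈ T, x % 2 = p) = -1 := by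
  have h1 : G A (fun T => ∀ x ∈ T, x % 2 = p) = 0 := by
    have : A = insert a (A.erase a) := (Finset.insert_erase ha).symm
    rw [this]
    refine G_toggle (Finset.notMem_erase a A) fun T _ => ?_
    simp [hp]
  have h2 := G_split A (fun T => ∀ x ∈ T, x % 2 = p) (fun T => T = ∅)
  have h3 : G A (fun T => (∀ x ∈ T, x % 2 = p) ∧ T = ∅) = 1 := by
    rw [← G_empty A]
    refine G_congr fun T _ => ?_
    constructor
    · exact fun h => h.2
    · rintro rfl; simp
  have h4 : G A (fun T => (∀ x ∈ T, x % 2 = p) ∧ ¬ T = ∅) =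
      G A (fun T => T ≠ ∅ ∧ ∀ x ∈ T, x % 2 = p) := G_congr fun T _ => and_comm
  rw [h1, h3, h4] at h2
  linarith

theorem D1_step_even (n : ℕ) (hn : n % 2 = 1) : G (Icc 1 (n + 1)) D1 = G (Icc 1 n) D1 := by
  have : Icc 1 (n + 1) = insert (n + 1) (Icc 1 n) := by ext; simp; omega
  rw [this, G_insert (by simp), G_false (P := fun T => D1 (insert (n + 1) T)), sub_zero]
  rintro T hT ⟨c, hc, h1, h2, -⟩
  have h3 := h2 (n + 1) (Finset.mem_insert_self _ _)
  rw [Finset.mem_insert] at hc
  rcases hc with rfl | hc
  · omega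
  · have := (Finset.mem_Icc.1 (hT hc)).2; omega

theorem D1_step_odd (n : ℕ) (hn : n % 2 = 0) (hn2 : 2 ≤ n) :
    G (Icc 1 (n + 1)) D1 = G (Icc 1 n) D1 + 1 := by
  have : Icc 1 (n + 1) = insert (n + 1) (Icc 1 n) := by ext; simp; omega
  rw [this, G_insert (by simp)]
  have h := G_par (A := Icc 1 n) (a := 2) (p := 0) (by simp; omega) (by omega)
  have h2 : G (Icc 1 n) (fun T => D1 (insert (n + 1) T)) = -1 := by
    rw [← h]
    refine G_congr fun T hT => ?_
    have hb : ∀ i ∈ T, i ≤ n := fun i hi => (Finset.mem_Icc.1 (hT hi)).2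
    constructor
    · rintro ⟨c, hc, h1, h2, h3, x, hx, hxc⟩
      have h4 := h2 (n + 1) (Finset.mem_insert_self _ _)
      have hc' : c = n + 1 := by
        rw [Finset.mem_insert] at hc
        rcases hc with h | hc
        · exact h
        · have := hb c hc; omega
      subst hc'
      refine ⟨?_, fun y hy => h3 y (Finset.mem_insert_of_mem hy) (by have := hb y hy; omega)⟩
      rw [Finset.mem_insert] at hx
      rcases hx with h | hx
      · exact absurd h hxc
      · exact Finset.ne_empty_of_mem hx
    · rintro ⟨h1, h2⟩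
      obtain ⟨x, hx⟩ := Finset.nonempty_iff_ne_empty.2 h1
      refine ⟨n + 1, Finset.mem_insert_self _ _, by omega, ?_, ?_, x, Finset.mem_insert_of_mem hx,
        by have := hb x hx; omega⟩
      · intro y hy
        rw [Finset.mem_insert] at hy
        rcases hy with h | hy
        · omega
        · have := hb y hy; omega
      · intro y hy hne
        rw [Finset.mem_insert] at hy
        rcases hy with h | hy
        · exact absurd h hne
        · exact h2 y hy
  rw [h2]; ring

theorem D1_val (s : ℕ) : G (Icc 1 (2 * s + 1)) D1 = s := by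
  induction s with
  | zero =>
    refine G_false ?_
    rintro T hT ⟨c, hc, h1, h2, h3, x, hx, hxc⟩
    have h4 := Finset.mem_Icc.1 (hT hc)
    have h5 := Finset.mem_Icc.1 (hT hx)
    omega
  | succ s ih =>
    have e : 2 * (s + 1) + 1 = (2 * s + 2) + 1 := by ring
    rw [e, D1_step_odd (2 * s + 2) (by omega) (by omega), D1_step_even (2 * s + 1) (by omega), ih]
    push_cast; ring

theorem D2_step_odd (a N : ℕ) (ha : a % 2 = 1) (haN : a ≤ N) :
    G (Icc a N) D2 = G (Icc (a + 1) N) D2 := by
  have : Icc a N = insert a (Icc (a + 1) N) := by ext; simp; omega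
  rw [this, G_insert (by simp), G_false (P := fun T => D2 (insert a T)), sub_zero]
  rintro T hT ⟨c, hc, h1, h2, -⟩
  have h3 := h2 a (Finset.mem_insert_self _ _)
  rw [Finset.mem_insert] at hc
  rcases hc with rfl | hc
  · omega
  · have := (Finset.mem_Icc.1 (hT hc)).1; omega

theorem D2_step_even (a N : ℕ) (ha : a % 2 = 0) (haN : a < N) :
    G (Icc a N) D2 = G (Icc (a + 1) N) D2 + 1 := by
  have : Icc a N = insert a (Icc (a + 1) N) := by ext; simp; omega
  rw [this, G_insert (by simp)]
  have h := G_par (A := Icc (a + 1) N) (a := a + 1) (p := 1) (by simp; omega) (by omega)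
  have h2 : G (Icc (a + 1) N) (fun T => D2 (insert a T)) = -1 := by
    rw [← h]
    refine G_congr fun T hT => ?_
    have hb : ∀ i ∈ T, a + 1 ≤ i := fun i hi => (Finset.mem_Icc.1 (hT hi)).1
    constructor
    · rintro ⟨c, hc, h1, h2, h3, x, hx, hxc⟩
      have h4 := h2 a (Finset.mem_insert_self _ _)
      have hc' : c = a := by
        rw [Finset.mem_insert] at hc
        rcases hc with h | hc
        · exact h
        · have := hb c hc; omega
      subst hc'
      refine ⟨?_, fun y hy => h3 y (Finset.mem_insert_of_mem hy) (by have := hb y hy; omega)⟩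
      rw [Finset.mem_insert] at hx
      rcases hx with h | hx
      · exact absurd h hxc
      · exact Finset.ne_empty_of_mem hx
    · rintro ⟨h1, h2⟩
      obtain ⟨x, hx⟩ := Finset.nonempty_iff_ne_empty.2 h1
      refine ⟨a, Finset.mem_insert_self _ _, ha, ?_, ?_, x, Finset.mem_insert_of_mem hx,
        by have := hb x hx; omega⟩
      · intro y hy
        rw [Finset.mem_insert] at hy
        rcases hy with h | hy
        · omega
        · have := hb y hy; omega
      · intro y hy hne
        rw [Finset.mem_insert] at hy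
        rcases hy with h | hy
        · exact absurd h hne
        · exact h2 y hy
  rw [h2]; ring

theorem D2_val (s : ℕ) : ∀ a, 1 ≤ a → G (Icc (2 * a) (2 * (a + s))) D2 = s := by
  induction s with
  | zero =>
    intro a ha
    refine G_false ?_
    rintro T hT ⟨c, hc, h1, h2, h3, x, hx, hxc⟩
    have h4 := Finset.mem_Icc.1 (hT hc)
    have h5 := Finset.mem_Icc.1 (hT hx)
    omega
  | succ s ih =>
    intro a ha
    rw [D2_step_even _ _ (by omega) (by omega), D2_step_odd _ _ (by omega) (by omega)]
    have := ih (a + 1) (by omega)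
    have e1 : 2 * a + 1 + 1 = 2 * (a + 1) := by ring
    have e2 : 2 * (a + (s + 1)) = 2 * (a + 1 + s) := by ring
    rw [e1, e2, this]
    push_cast; ring

theorem val132 {t : ℕ} (ht : 2 ≤ t) : G (Icc 0 (2 * t)) A132 = (t : ℤ) - 1 := by
  rw [G_compl ⟨0, by simp⟩, icc0, G_insert (notMem0 t)]
  have e1 : G (Icc 1 (2 * t)) (fun T => ¬ A132 T) = 0 := by
    have : Icc 1 (2 * t) = insert 1 (Icc 2 (2 * t)) := by ext; simp; omega
    rw [this]
    refine G_toggle (by simp) fun T hT => ?_
    have hb : ∀ i ∈ T, 2 ≤ i := fun i hi => (Finset.mem_Icc.1 (hT hi)).1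
    rw [not_iff_not]
    constructor
    · rintro ⟨i, hi, j, hj, k, hk, h⟩
      exact ⟨i, Finset.mem_insert_of_mem hi, j, Finset.mem_insert_of_mem hj,
        k, Finset.mem_insert_of_mem hk, h⟩
    · rintro ⟨i, hi, j, hj, k, hk, hij, hjk, h, h'⟩
      rw [Finset.mem_insert] at hi hj hk
      rcases hi with rfl | hi
      · rw [R_pos (by omega)] at h; omega
      · have := hb i hi
        rcases hj with rfl | hj
        · omega
        · rcases hk with rfl | hk
          · omega
          · exact ⟨i, hi, j, hj, k, hk, hij, hjk, h, h'⟩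
  have e2 : G (Icc 1 (2 * t)) (fun T => ¬ A132 (insert 0 T)) = t - 1 := by
    have hI : Icc 1 (2 * t) = insert (2 * t) (Icc 1 (2 * t - 1)) := by ext; simp; omega
    rw [hI, G_insert (by simp; omega)]
    have hsp := G_split (Icc 1 (2 * t - 1)) (fun T => ¬ A132 (insert 0 T))
      (fun T => ¬ A132 (insert 0 (insert (2 * t) T)))
    have f1 : G (Icc 1 (2 * t - 1)) (fun T => ¬ A132 (insert 0 T) ∧
        ¬ A132 (insert 0 (insert (2 * t) T))) =
        G (Icc 1 (2 * t - 1)) (fun T => ¬ A132 (insert 0 (insert (2 * t) T))) := by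
      refine G_congr fun T _ => ⟨fun h => h.2, fun h => ⟨fun h' => h ?_, h⟩⟩
      obtain ⟨i, hi, j, hj, k, hk, hh⟩ := h'
      have hsub : ∀ x, x ∈ insert 0 T → x ∈ insert 0 (insert (2 * t) T) := by
        intro x hx; simp only [Finset.mem_insert] at hx ⊢; tauto
      exact ⟨i, hsub i hi, j, hsub j hj, k, hsub k hk, hh⟩
    have f2 : G (Icc 1 (2 * t - 1)) (fun T => ¬ A132 (insert 0 T) ∧
        ¬ ¬ A132 (insert 0 (insert (2 * t) T))) = t - 1 := by
      have hD := D1_val (t - 1)
      have e : 2 * (t - 1) + 1 = 2 * t - 1 := by omega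
      rw [e] at hD
      have hc : ((t - 1 : ℕ) : ℤ) = (t : ℤ) - 1 := by push_cast [Nat.cast_sub (by omega : 1 ≤ t)]; ring
      rw [← hc, ← hD]
      refine G_congr fun T hT => ?_
      have hb : ∀ i ∈ T, 1 ≤ i ∧ i ≤ 2 * t - 1 := fun i hi => Finset.mem_Icc.1 (hT hi)
      rw [not_not]
      constructor
      · rintro ⟨h1, i, hi, j, hj, k, hk, hij, hjk, hR1, hR2, hR3⟩
        -- k = 2t, i even in T, j odd in T
        have hodd : ∀ x ∈ T, ∀ y ∈ T, x % 2 = 1 → y % 2 = 1 → x < y → False := by
          intro x hx y hy hx2 hy2 hxy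
          refine h1 ⟨0, by simp, x, Finset.mem_insert_of_mem hx, y, Finset.mem_insert_of_mem hy,
            (hb x hx).1, hxy, ?_, ?_, ?_⟩
          · rw [R_zero]; exact hx2
          · rw [R_zero]; exact hy2
          · have := (hb x hx).1
            rw [R_pos (by omega)]; omega
        have heo : ∀ x ∈ T, ∀ y ∈ T, ∀ w ∈ T, x % 2 = 0 → y % 2 = 1 → x < y → y < w → False := by
          intro x hx y hy w hw hx2 hy2 hxy hyw
          have hx1 := (hb x hx).1
          have hy1 := (hb y hy).1
          refine h1 ⟨x, Finset.mem_insert_of_mem hx, y, Finset.mem_insert_of_mem hy, w,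
            Finset.mem_insert_of_mem hw, hxy, hyw, ?_, ?_, ?_⟩
          · rw [R_pos (by omega)]; exact hx2
          · rw [R_pos (by omega)]; exact hx2
          · rw [R_pos (by omega)]; omega
        have hk0 : k ≠ 0 := by omega
        have hj0 : j ≠ 0 := by omega
        have hkT : k = 2 * t := by
          simp only [Finset.mem_insert] at hk
          rcases hk with h | h | hkT
          · omega
          · exact h
          · exfalso
            have hk2 := hb k hkT
            have hjT : j ∈ T := by
              simp only [Finset.mem_insert] at hj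
              rcases hj with h | h | h
              · omega
              · omega
              · exact h
            simp only [Finset.mem_insert] at hi
            rw [R_pos hj0] at hR3
            rcases hi with rfl | h | hiT
            · rw [R_zero] at hR1 hR2
              exact hodd j hjT k hkT hR1 hR2 hjk
            · have := hb j hjT; omega
            · have hi1 := (hb i hiT).1
              rw [R_pos (by omega)] at hR1
              exact heo i hiT j hjT k hkT hR1 (by omega) hij hjk
        subst hkT
        have hjT : j ∈ T := by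
          simp only [Finset.mem_insert] at hj
          rcases hj with h | h | h
          · omega
          · omega
          · exact h
        rw [R_pos hj0] at hR3
        have hj2 : j % 2 = 1 := by omega
        have hiT : i ∈ T ∧ i % 2 = 0 := by
          simp only [Finset.mem_insert] at hi
          rcases hi with rfl | h | h
          · rw [R_zero] at hR2; omega
          · omega
          · refine ⟨h, ?_⟩
            have hi1 := (hb i h).1
            rw [R_pos (by omega)] at hR1
            exact hR1
        refine ⟨j, hjT, hj2, ?_, ?_, i, hiT.1, hij.ne⟩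
        · intro x hx
          by_contra hc
          exact heo i hiT.1 j hjT x hx hiT.2 hj2 hij (by omega)
        · intro x hx hxj
          by_contra hc
          rcases lt_or_gt_of_ne hxj with hlt | hlt
          · exact hodd x hx j hjT (by omega) hj2 hlt
          · exact hodd j hjT x hx hj2 (by omega) hlt
      · rintro ⟨c, hc, hc2, hmax, hev, x, hx, hxc⟩
        have hx2 := hev x hx hxc
        have hxc' : x < c := lt_of_le_of_ne (hmax x hx) hxc
        have hcb := hb c hc
        have hxb := hb x hx
        constructor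
        · rintro ⟨i, hi, j, hj, k, hk, hij, hjk, hR1, hR2, hR3⟩
          have hj0 : j ≠ 0 := by omega
          have hk0 : k ≠ 0 := by omega
          rw [Finset.mem_insert] at hj hk
          have hjT := hj.resolve_left hj0
          have hkT := hk.resolve_left hk0
          have hkc := hmax k hkT
          have hj2 := hev j hjT (by omega)
          rw [R_pos hj0] at hR3
          exact hR3 hj2
        · have hsub : ∀ y, y ∈ T → y ∈ insert 0 (insert (2 * t) T) := by
            intro y hy; simp only [Finset.mem_insert]; tauto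
          refine ⟨x, hsub x hx, c, hsub c hc, 2 * t, by simp, hxc', by omega, ?_, ?_, ?_⟩
          · rw [R_pos (by omega)]; exact hx2
          · rw [R_pos (by omega)]; exact hx2
          · rw [R_pos (by omega)]; omega
    rw [f1, f2] at hsp
    rw [hsp]; ring
  rw [e1, e2]; ring

theorem val312 {t : ℕ} (ht : 2 ≤ t) : G (Icc 0 (2 * t)) A312 = (t : ℤ) - 2 := by
  rw [G_compl ⟨0, by simp⟩, icc0, G_insert (notMem0 t)]
  have hI1 : Icc 1 (2 * t) = insert 1 (Icc 2 (2 * t)) := by ext; simp; omega
  have hI2 : Icc 2 (2 * t) = insert 2 (Icc 3 (2 * t)) := by ext; simp; omega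
  have hI3 : Icc 3 (2 * t) = insert 3 (Icc 4 (2 * t)) := by ext; simp; omega
  have e1 : G (Icc 1 (2 * t)) (fun T => ¬ A312 T) = 1 := by
    rw [hI1, G_insert (by simp)]
    have f1 : G (Icc 2 (2 * t)) (fun T => ¬ A312 T) = 0 := by
      rw [hI2]
      refine G_toggle (by simp) fun T hT => ?_
      have hb : ∀ i ∈ T, 3 ≤ i := fun i hi => (Finset.mem_Icc.1 (hT hi)).1
      rw [not_iff_not]
      constructor
      · rintro ⟨i, hi, j, hj, k, hk, h⟩
        exact ⟨i, Finset.mem_insert_of_mem hi, j, Finset.mem_insert_of_mem hj,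
          k, Finset.mem_insert_of_mem hk, h⟩
      · rintro ⟨i, hi, j, hj, k, hk, hij, hjk, h, h'⟩
        rw [Finset.mem_insert] at hi hj hk
        rcases hi with rfl | hi
        · rw [R_pos (by omega)] at h; omega
        · have := hb i hi
          rcases hj with rfl | hj
          · omega
          · rcases hk with rfl | hk
            · omega
            · exact ⟨i, hi, j, hj, k, hk, hij, hjk, h, h'⟩
    have f2 : G (Icc 2 (2 * t)) (fun T => ¬ A312 (insert 1 T)) = -1 := by
      have g1 : G (Icc 2 (2 * t)) (fun T => ¬ A312 (insert 1 T)) =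
          G (Icc 2 (2 * t)) (fun T => ¬ A12 T) := by
        refine G_congr fun T hT => ?_
        have hb : ∀ i ∈ T, 2 ≤ i := fun i hi => (Finset.mem_Icc.1 (hT hi)).1
        rw [not_iff_not]
        constructor
        · rintro ⟨i, hi, j, hj, k, hk, hij, hjk, h, h', h''⟩
          rw [Finset.mem_insert] at hi hj hk
          have h1 : 1 ≤ i := by
            rcases hi with h | h
            · omega
            · have := hb i h; omega
          exact ⟨j, hj.resolve_left (by omega), k, hk.resolve_left (by omega), hjk, h''⟩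
        · rintro ⟨j, hj, k, hk, hjk, h⟩
          have := hb j hj
          refine ⟨1, by simp, j, Finset.mem_insert_of_mem hj, k, Finset.mem_insert_of_mem hk,
            by omega, hjk, ?_, ?_, h⟩
          · rw [R_pos (by omega)]; omega
          · rw [R_pos (by omega)]; omega
      rw [g1, hI2, G_insert (by simp)]
      have g2 : G (Icc 3 (2 * t)) (fun T => ¬ A12 T) = 0 := by
        rw [hI3]
        refine G_toggle (by simp) fun T hT => ?_
        have hb : ∀ i ∈ T, 4 ≤ i := fun i hi => (Finset.mem_Icc.1 (hT hi)).1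
        rw [not_iff_not]
        constructor
        · rintro ⟨i, hi, j, hj, h⟩
          exact ⟨i, Finset.mem_insert_of_mem hi, j, Finset.mem_insert_of_mem hj, h⟩
        · rintro ⟨i, hi, j, hj, hij, h⟩
          rw [Finset.mem_insert] at hi hj
          rcases hi with rfl | hi
          · rw [R_pos (by omega)] at h; omega
          · rcases hj with rfl | hj
            · have := hb i hi; omega
            · exact ⟨i, hi, j, hj, hij, h⟩
      have g3 : G (Icc 3 (2 * t)) (fun T => ¬ A12 (insert 2 T)) = 1 := by
        rw [← G_empty (Icc 3 (2 * t))]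
        refine G_congr fun T hT => ?_
        have hb : ∀ i ∈ T, 3 ≤ i := fun i hi => (Finset.mem_Icc.1 (hT hi)).1
        constructor
        · intro h
          rw [Finset.eq_empty_iff_forall_notMem]
          intro x hx
          refine h ⟨2, by simp, x, Finset.mem_insert_of_mem hx, by have := hb x hx; omega, ?_⟩
          rw [R_pos (by omega)]
        · rintro rfl ⟨i, hi, j, hj, hij, h⟩
          simp at hi hj; omega
      rw [g2, g3]; ring
    rw [f1, f2]; ring
  have e2 : G (Icc 1 (2 * t)) (fun T => ¬ A312 (insert 0 T)) = t - 1 := by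
    rw [hI1, G_insert (by simp)]
    have hsp := G_split (Icc 2 (2 * t)) (fun T => ¬ A312 (insert 0 T))
      (fun T => ¬ A312 (insert 0 (insert 1 T)))
    have f1 : G (Icc 2 (2 * t)) (fun T => ¬ A312 (insert 0 T) ∧
        ¬ A312 (insert 0 (insert 1 T))) =
        G (Icc 2 (2 * t)) (fun T => ¬ A312 (insert 0 (insert 1 T))) := by
      refine G_congr fun T _ => ⟨fun h => h.2, fun h => ⟨fun h' => h ?_, h⟩⟩
      obtain ⟨i, hi, j, hj, k, hk, hh⟩ := h'
      have hsub : ∀ x, x ∈ insert 0 T → x ∈ insert 0 (insert 1 T) := by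
        intro x hx; simp only [Finset.mem_insert] at hx ⊢; tauto
      exact ⟨i, hsub i hi, j, hsub j hj, k, hsub k hk, hh⟩
    have f2 : G (Icc 2 (2 * t)) (fun T => ¬ A312 (insert 0 T) ∧
        ¬ ¬ A312 (insert 0 (insert 1 T))) = t - 1 := by
      have hD := D2_val (t - 1) 1 le_rfl
      have e : 2 * (1 + (t - 1)) = 2 * t := by omega
      rw [e, mul_one] at hD
      have hc : ((t - 1 : ℕ) : ℤ) = (t : ℤ) - 1 := by push_cast [Nat.cast_sub (by omega : 1 ≤ t)]; ring
      rw [← hc, ← hD]
      refine G_congr fun T hT => ?_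
      have hb : ∀ i ∈ T, 2 ≤ i ∧ i ≤ 2 * t := fun i hi => Finset.mem_Icc.1 (hT hi)
      rw [not_not]
      constructor
      · rintro ⟨h1, i, hi, j, hj, k, hk, hij, hjk, hR1, hR2, hR3⟩
        have hev : ∀ x ∈ T, ∀ y ∈ T, x % 2 = 0 → y % 2 = 0 → x < y → False := by
          intro x hx y hy hx2 hy2 hxy
          have hx1 := (hb x hx).1
          refine h1 ⟨0, by simp, x, Finset.mem_insert_of_mem hx, y, Finset.mem_insert_of_mem hy,
            by omega, hxy, ?_, ?_, ?_⟩
          · rw [R_zero]; omega
          · rw [R_zero]; omega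
          · rw [R_pos (by omega)]; exact hx2
        have hoe : ∀ x ∈ T, ∀ y ∈ T, ∀ w ∈ T, x % 2 = 1 → y % 2 = 0 → x < y → y < w → False := by
          intro x hx y hy w hw hx2 hy2 hxy hyw
          have hx1 := (hb x hx).1
          have hy1 := (hb y hy).1
          refine h1 ⟨x, Finset.mem_insert_of_mem hx, y, Finset.mem_insert_of_mem hy, w,
            Finset.mem_insert_of_mem hw, hxy, hyw, ?_, ?_, ?_⟩
          · rw [R_pos (by omega)]; omega
          · rw [R_pos (by omega)]; omega
          · rw [R_pos (by omega)]; exact hy2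
        have hk0 : k ≠ 0 := by omega
        have hj0 : j ≠ 0 := by omega
        have hkT : k ∈ T := by
          simp only [Finset.mem_insert] at hk
          rcases hk with h | h | h
          · omega
          · omega
          · exact h
        -- j in T, since j = 1 is impossible (R 1 k false)
        rw [R_pos hj0] at hR3
        have hjT : j ∈ T := by
          simp only [Finset.mem_insert] at hj
          rcases hj with h | h | h
          · omega
          · omega
          · exact h
        refine ⟨j, hjT, hR3, ?_, ?_, k, hkT, hjk.ne'⟩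
        · intro x hx
          by_contra hc
          rcases Nat.mod_two_eq_zero_or_one x with hx2 | hx2
          · exact hev x hx j hjT hx2 hR3 (by omega)
          · exact hoe x hx j hjT k hkT hx2 hR3 (by omega) hjk
        · intro x hx hxj
          by_contra hc
          rcases lt_or_gt_of_ne hxj with hlt | hlt
          · exact hev x hx j hjT (by omega) hR3 hlt
          · exact hev j hjT x hx hR3 (by omega) hlt
      · rintro ⟨c, hc, hc2, hmin, hodd, x, hx, hxc⟩
        have hx2 := hodd x hx hxc
        have hxc' : c < x := lt_of_le_of_ne (hmin x hx) (Ne.symm hxc)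
        have hcb := hb c hc
        have hxb := hb x hx
        constructor
        · rintro ⟨i, hi, j, hj, k, hk, hij, hjk, hR1, hR2, hR3⟩
          have hj0 : j ≠ 0 := by omega
          have hk0 : k ≠ 0 := by omega
          rw [Finset.mem_insert] at hi hj hk
          have hjT := hj.resolve_left hj0
          have hkT := hk.resolve_left hk0
          rw [R_pos hj0] at hR3
          have hjc : j = c := by
            by_contra hne
            have := hodd j hjT hne
            omega
          have hkc := hodd k hkT (by omega)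
          rcases hi with rfl | hiT
          · rw [R_zero] at hR2; omega
          · have := hmin i hiT; omega
        · have hsub : ∀ y, y ∈ T → y ∈ insert 0 (insert 1 T) := by
            intro y hy; simp only [Finset.mem_insert]; tauto
          refine ⟨1, by simp, c, hsub c hc, x, hsub x hx, by omega, hxc', ?_, ?_, ?_⟩
          · rw [R_pos (by omega)]; omega
          · rw [R_pos (by omega)]; omega
          · rw [R_pos (by omega)]; exact hc2
    rw [f1, f2] at hsp
    rw [hsp]; ring
  rw [e1, e2]; ring

end Pool.Agent.W155.MF
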